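import Pool.Agent.Helper13.PS.St2

/-!
# Project PS, part 2 (MP_77ff3d_nt): module UI, the law for T (adapted from Helper54/PS/M_QD)
-/

set_option autoImplicit false

noncomputable section

namespace Pool.Agent.Helper16.PS

open Finset Pool.Agent.Helper76.ND Pool.Agent.Helper13.PS

private theorem ui_log3_le : Real.log 3 ≤ 65 / 41 * Real.log 2 := by
  have h1 : Real.log ((3 : ℝ) ^ 41) < Real.log ((2 : ℝ) ^ 65) :=
    Real.log_lt_log (by positivity) (by norm_num)
  rw [Real.log_pow, Real.log_pow] at h1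
  push_cast at h1
  linarith

/-- the estimates at one `N` -/
private theorem ui_core (hQT : StQT) (R : ℝ) (N K : ℕ) (hR : 50 ≤ R) (hN : 1 ≤ N)
    (hK1 : ∀ k ≤ K, |Real.log (S^[k] N : ℕ) - (Real.log N - rho * k)| ≤ R / 5 ∧
      |(hd (wd k N) : ℝ) - k / 2| ≤ R / 5)
    (hK2 : Real.log (S^[K] N : ℕ) ≤ 35 * R) :
    ∀ k : ℕ, (k : ℝ) * Real.log (4 / 3) ≤ 3 * Real.log N →
    |Real.log (T^[k] N : ℕ) - (Real.log N - k * Real.log (4 / 3) / 3)| ≤ 450 * R := by
  obtain ⟨q1, q2, q3, q4, q5⟩ := hQT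
  intro k hk
  obtain ⟨A, hA⟩ : ∃ A : ℝ, A = Real.log N := ⟨_, rfl⟩
  obtain ⟨c, hc⟩ : ∃ c : ℝ, c = Real.log (4 / 3) / 3 := ⟨_, rfl⟩
  have hrho : rho = 3 / 2 * c := by
    unfold rho
    rw [hc]
    ring
  have hlog43 : Real.log (4 / 3) = 2 * Real.log 2 - Real.log 3 := by
    rw [Real.log_div (by norm_num) (by norm_num), show (4 : ℝ) = 2 ^ 2 by norm_num, Real.log_pow]
    push_cast
    ring
  have hl2' := Real.log_two_lt_d9
  have hl2'' := Real.log_two_gt_d9
  have hl3 := ui_log3_le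
  have hl3' : Real.log 3 ≤ 11 / 10 := by linarith
  have hl30 : 0 ≤ Real.log 3 := Real.log_nonneg (by norm_num)
  have hc1 : 957 / 10000 ≤ c := by rw [hc, hlog43]; linarith
  have hc2 : c ≤ 1 / 9 := by
    have := Real.log_le_sub_one_of_pos (show (0 : ℝ) < 4 / 3 by norm_num)
    rw [hc]
    linarith
  rw [← hA] at hk ⊢
  have hck : c * k ≤ A := by rw [hc]; linarith
  have hkc : (k : ℝ) * Real.log (4 / 3) / 3 = c * k := by rw [hc]; ring
  rw [hkc]
  -- positivity
  have hSpos : ∀ i, 1 ≤ S^[i] N := fun i => by rw [← q1 i N]; exact q5 _ _ hN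
  have hTlog : 0 ≤ Real.log (T^[k] N : ℕ) := by
    refine Real.log_nonneg ?_
    exact_mod_cast q5 k N hN
  have hnear : ∀ i ≤ K, |A - rho * i - (A - c * (i + hd (wd i N) : ℕ))| ≤ R / 45 := by
    intro i hi
    have h1 := (hK1 i hi).2
    have h2 : A - rho * i - (A - c * (i + hd (wd i N) : ℕ)) = c * ((hd (wd i N) : ℝ) - i / 2) := by
      push_cast
      rw [hrho]
      ring
    rw [h2, abs_mul, abs_of_nonneg (by linarith : (0 : ℝ) ≤ c)]
    calc c * |(hd (wd i N) : ℝ) - i / 2| ≤ 1 / 9 * (R / 5) :=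
          mul_le_mul hc2 h1 (abs_nonneg _) (by norm_num)
      _ = R / 45 := by ring
  obtain ⟨i, hi⟩ := q2 k N
  -- comparison of T and S
  have hTS : |Real.log (T^[k] N : ℕ) - Real.log (S^[i] N : ℕ)| ≤ 11 / 10 ∧
      ∃ d : ℝ, 0 ≤ d ∧ d ≤ 1 ∧ (k : ℝ) = ((i + hd (wd i N) : ℕ) : ℝ) + d := by
    rcases hi with ⟨h1, h2⟩ | ⟨h1, h2, h3⟩
    · refine ⟨by rw [h2]; simp; norm_num, 0, le_rfl, by norm_num, by rw [← h1]; simp⟩
    · refine ⟨?_, 1, by norm_num, le_rfl, by rw [h1]; push_cast; ring⟩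
      have h4 := hSpos i
      have h5 : S^[i] N ≤ 3 * S^[i] N - 1 := by omega
      have h6 : 3 * S^[i] N - 1 ≤ 3 * S^[i] N := by omega
      have hp : (0 : ℝ) < (S^[i] N : ℕ) := by exact_mod_cast h4
      have h7 : Real.log (S^[i] N : ℕ) ≤ Real.log ((3 * S^[i] N - 1 : ℕ) : ℝ) :=
        Real.log_le_log hp (by exact_mod_cast h5)
      have h8 : Real.log ((3 * S^[i] N - 1 : ℕ) : ℝ) ≤ Real.log 3 + Real.log (S^[i] N : ℕ) := by
        rw [← Real.log_mul (by norm_num) hp.ne']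
        refine Real.log_le_log (lt_of_lt_of_le hp (by exact_mod_cast h5)) ?_
        exact_mod_cast h6
      rw [h3, abs_le]
      constructor <;> linarith
  obtain ⟨hTS1, d, hd0, hd1, hkd⟩ := hTS
  by_cases hiK : i ≤ K
  · -- first case
    have h1 := abs_le.1 (hK1 i hiK).1
    have h2 := abs_le.1 (hnear i hiK)
    have h3 := abs_le.1 hTS1
    rw [← hA] at h1
    have h4 : c * (k : ℝ) = c * ((i + hd (wd i N) : ℕ) : ℝ) + c * d := by rw [hkd]; ring
    have h5 : 0 ≤ c * d := mul_nonneg (by linarith) hd0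
    have h6 : c * d ≤ 1 / 9 := by
      calc c * d ≤ c * 1 := mul_le_mul_of_nonneg_left hd1 (by linarith)
        _ ≤ 1 / 9 := by linarith
    rw [h4, abs_le]
    obtain ⟨h11, h12⟩ := h1
    obtain ⟨h21, h22⟩ := h2
    obtain ⟨h31, h32⟩ := h3
    constructor <;> linarith
  · -- second case
    push Not at hiK
    have h1 := abs_le.1 (hK1 K le_rfl).1
    have h2 := abs_le.1 (hnear K le_rfl)
    rw [← hA] at h1
    obtain ⟨τ, hτ⟩ : ∃ τ : ℕ, τ = K + hd (wd K N) := ⟨_, rfl⟩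
    rw [← hτ] at h2
    have h3 : τ ≤ k := by
      have h4 := q4 K i N hiK.le
      rw [← hτ] at h4
      have h5 : i + hd (wd i N) ≤ k := by
        rcases hi with h | h <;> omega
      omega
    have h6 : A - c * τ ≤ 36 * R := by linarith [h1.1, h2.2, h2.1]
    obtain ⟨j, hj⟩ : ∃ j : ℕ, k = τ + j := ⟨k - τ, by omega⟩
    have h7 : T^[k] N ≤ 3 ^ j * S^[K] N := by
      have h8 := q3 τ j N
      rw [← hj] at h8
      have h9 := q1 K N
      rw [← hτ] at h9
      rw [h9] at h8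
      exact h8
    have h10 : Real.log (T^[k] N : ℕ) ≤ j * Real.log 3 + Real.log (S^[K] N : ℕ) := by
      have hp : (0 : ℝ) < (S^[K] N : ℕ) := by exact_mod_cast hSpos K
      have hp' : (0 : ℝ) < (T^[k] N : ℕ) := by exact_mod_cast q5 k N hN
      rw [← Real.log_pow, ← Real.log_mul (by positivity) hp.ne']
      exact Real.log_le_log hp' (by exact_mod_cast h7)
    have h11 : c * j ≤ 36 * R := by
      have : (k : ℝ) = τ + j := by rw [hj]; push_cast; ring
      rw [this] at hck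
      linarith
    have h12 : (j : ℝ) * Real.log 3 ≤ 23 / 2 * (36 * R) := by
      have h13 : (j : ℝ) * Real.log 3 ≤ j * (11 / 10) :=
        mul_le_mul_of_nonneg_left hl3' (by positivity)
      have h14 : (957 / 10000 : ℝ) * j ≤ c * j := mul_le_mul_of_nonneg_right hc1 (by positivity)
      linarith
    have h16 : A - c * k ≤ 36 * R := by
      have : c * (τ : ℝ) ≤ c * k := mul_le_mul_of_nonneg_left (by exact_mod_cast h3) (by linarith)
      linarith
    rw [abs_le]
    constructor <;> linarith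

/-- **UI**. -/
theorem hUI (hUH : StUH) (hQT : StQT) : StUI := by
  intro H hH m t N ht hm hN1 hN2 hX
  obtain ⟨K, hK1, hK2⟩ := hUH H hH m t N ht hm hN1 hN2 hX
  refine ui_core hQT (Real.sqrt H) N K ?_ hN1 hK1 hK2
  exact Real.le_sqrt_of_sq_le (by norm_num; exact hH)

end Pool.Agent.Helper16.PS
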