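import Pool.Agent.Helper16.PS.CDa
import Pool.Agent.Helper89.PS.TS

/-!
# MP_8013d7_co, module CD: the main counting lemma
-/

set_option autoImplicit false

namespace PS

open SimpleGraph Finset Pool.Agent.Helper37.PathSys
open Pool.Agent.Helper37.PathSys.PathSystem

open scoped Classical

noncomputable section

variable {n : ℕ} {G : SimpleGraph (Fin n)}

namespace CD

lemma two_stage_inst {α ι C : Type} [Fintype ι] [inst : DecidableEq ι] (A : Finset α)
    (code : α → ι → C)
    (hinj : ∀ P ∈ A, ∀ Q ∈ A, code P = code Q → P = Q) (X : Finset ι)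
    (wt : ι → C → ℝ) (hwt : ∀ i c, 0 ≤ wt i c)
    (o1 : ι → Finset C) (o2 : α → ι → Finset C)
    (hdep : ∀ P ∈ A, ∀ Q ∈ A, (∀ i ∈ X, code P i = code Q i) → o2 P = o2 Q)
    (h1 : ∀ P ∈ A, ∀ i ∈ X, code P i ∈ o1 i)
    (h2 : ∀ P ∈ A, ∀ i, i ∉ X → code P i ∈ o2 P i) (B : ℝ)
    (hB : ∀ P ∈ A, ∏ i ∈ Xᶜ, ∑ c ∈ o2 P i, wt i c ≤ B) (hB0 : 0 ≤ B) :
    ∑ P ∈ A, ∏ i, wt i (code P i) ≤ B * ∏ i ∈ X, ∑ c ∈ o1 i, wt i c := by
  have h : inst = fun a b => Classical.propDecidable (a = b) := Subsingleton.elim _ _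
  subst h
  exact two_stage A code hinj X wt hwt o1 o2 hdep h1 h2 B hB hB0

/-- the total number of pairs `(u, y)`, `u ≠ y`, sorted by the next vertex -/
lemma sum_card_Bs (P : PathSystem G) : ∑ q : Fin n × Fin n, (Bs P q.1 q.2).card ≤ n ^ 2 := by
  rw [Fintype.sum_prod_type_right]
  have : ∀ y : Fin n, ∑ x, (Bs P x y).card ≤ n := by
    intro y
    have h1 : ∑ x : Fin n, (Bs P x y).card ≤
        ∑ x : Fin n, ((univ : Finset (Fin n)).filter fun u => P.nxt u y = x).card := by
      refine sum_le_sum fun x _ => card_le_card ?_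
      intro u hu
      rw [mem_Bs] at hu
      simp [hu.2]
    refine h1.trans ?_
    rw [← card_eq_sum_card_fiberwise (fun _ _ => mem_univ _), card_univ, Fintype.card_fin]
  calc ∑ y, ∑ x, (Bs P x y).card ≤ ∑ _y : Fin n, n := sum_le_sum fun y _ => this y
    _ = n ^ 2 := by simp [sq]

/-- the total number of visible options -/
lemma sum_card_Cs {s : ℕ} (hs : 1 ≤ s) {W : Finset (Fin n)} {a : Arc n} {P : PathSystem G}
    (ha : arcP s P = a) (T : Finset (Pr n)) :
    ∑ p ∈ T, (Cs W a P p).card ≤ 2 * n ^ 2 * s := by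
  have key : ∑ p ∈ T, (Cs W a P p).card ≤ ∑ q : Fin n × Fin n,
      ((Bs P q.1 q.2).card * s + (Bs P q.2 q.1).card * s) := by
    have h1 : ∀ q : Fin n × Fin n, (T.filter fun p => q ∈ Cs W a P p).card ≤
        (Bs P q.1 q.2).card * s + (Bs P q.2 q.1).card * s := by
      intro q
      by_cases hq : q.1 ≠ q.2 ∧ ¬ (hvA a q.1 q.2 ∧ hvA a q.2 q.1)
      · have h2 : (T.filter fun p => q ∈ Cs W a P p).card ≤
            (Bs P q.1 q.2 ×ˢ Bs P q.2 q.1).card := by
          refine card_le_card_of_injOn (fun p => p.1) ?_ ?_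
          · intro p hp
            simp only [coe_filter, Set.mem_ofPred_eq, Cs, mem_filter, mem_univ, true_and] at hp
            obtain ⟨_, ⟨h1, h2, h3, h4⟩, h5, h6, h7, h8⟩ := hp
            simp only [coe_product, Set.mem_prod, mem_coe, mem_Bs]
            refine ⟨⟨?_, h6⟩, ?_, h7⟩
            · intro h
              rw [h] at h1
              exact h4 h1
            · intro h
              rw [h] at h2
              exact h3 h2
          · intro p _ p' _ h
            exact Subtype.ext h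
        rw [card_product] at h2
        refine h2.trans ?_
        have hna : ¬ (hv s P q.1 q.2 ∧ hv s P q.2 q.1) := by
          rw [hv_iff hs, hv_iff hs, ha]
          exact hq.2
        by_cases h3 : hv s P q.1 q.2
        · have h4 : ¬ hv s P q.2 q.1 := fun h => hna ⟨h3, h⟩
          unfold hv at h4
          have h5 : (Bs P q.2 q.1).card ≤ s := by
            by_contra h
            exact h4 ⟨hq.1.symm, by omega⟩
          calc _ ≤ (Bs P q.1 q.2).card * s := Nat.mul_le_mul le_rfl h5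
            _ ≤ _ := Nat.le_add_right _ _
        · unfold hv at h3
          have h5 : (Bs P q.1 q.2).card ≤ s := by
            by_contra h
            exact h3 ⟨hq.1, by omega⟩
          calc _ ≤ s * (Bs P q.2 q.1).card := Nat.mul_le_mul h5 le_rfl
            _ ≤ _ := by rw [mul_comm s]; exact Nat.le_add_left _ _
      · have h2 : (T.filter fun p => q ∈ Cs W a P p) = ∅ := by
          apply filter_eq_empty_iff.2
          intro p _ hp
          simp only [Cs, mem_filter, mem_univ, true_and] at hp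
          exact hq ⟨hp.2.1, hp.2.2.2.2⟩
        rw [h2, card_empty]
        exact Nat.zero_le _
    calc ∑ p ∈ T, (Cs W a P p).card
        = ∑ p ∈ T, ∑ q : Fin n × Fin n, if q ∈ Cs W a P p then 1 else 0 := by
          refine sum_congr rfl fun p _ => ?_
          rw [sum_ite_mem, univ_inter, card_eq_sum_ones]
      _ = ∑ q : Fin n × Fin n, ∑ p ∈ T, if q ∈ Cs W a P p then 1 else 0 := sum_comm
      _ = ∑ q : Fin n × Fin n, (T.filter fun p => q ∈ Cs W a P p).card := by
          refine sum_congr rfl fun q _ => ?_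
          rw [card_filter]
      _ ≤ _ := sum_le_sum fun q _ => h1 q
  refine key.trans ?_
  rw [sum_add_distrib, ← sum_mul, ← sum_mul]
  have e1 := sum_card_Bs P
  have e2 : ∑ q : Fin n × Fin n, (Bs P q.2 q.1).card ≤ n ^ 2 := by
    have : ∑ q : Fin n × Fin n, (Bs P q.2 q.1).card = ∑ q : Fin n × Fin n, (Bs P q.1 q.2).card := by
      rw [Fintype.sum_prod_type, Fintype.sum_prod_type_right]
    rw [this]
    exact e1
  calc _ ≤ n ^ 2 * s + n ^ 2 * s :=
        Nat.add_le_add (Nat.mul_le_mul e1 le_rfl) (Nat.mul_le_mul e2 le_rfl)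
    _ = 2 * n ^ 2 * s := by ring

/-- the product of the weights -/
lemma prod_wt {s : ℕ} {q τ β : ℝ} (hq : 0 < q) (hqn : q ≤ n) (hτ : 0 ≤ τ)
    (hβ : 0 < β) (hβ' : β ^ 32 = q / n) {W : Finset (Fin n)} {F : SimpleGraph (Fin n)}
    {a : Arc n} {P : PathSystem G} (hF : dirG P = F) (ha : arcP s P = a)
    (hV : (LLs s P).card ≤ 32 * (Vis W s P).card) :
    τ ^ (LLs s P).card ≤ ∏ p : Pr n, wtc (τ * β) (τ * β * (n / q)) (cde W s F a P p) := by
  have hn : (0 : ℝ) < n := hq.trans_le hqn
  have h1 : ∀ p : Pr n, wtc (τ * β) (τ * β * (n / q)) (cde W s F a P p) =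
      (if p ∈ LLs s P then τ * β else 1) * (if p ∈ Vis W s P then (n : ℝ) / q else 1) := by
    intro p
    unfold cde
    by_cases hr : p ∈ Rem F a
    swap
    · rw [if_pos hr]
      have h2 : p ∉ LLs s P := by
        intro h
        rw [mem_LLs, hF, ha] at h
        exact hr h.1
      have h3 : p ∉ Vis W s P := fun h => h2 (mem_Vis.1 h).1
      rw [if_neg h2, if_neg h3]
      simp [wtc]
    · rw [if_neg (not_not.2 hr)]
      by_cases h3 : p ∈ Vis W s P
      · have h2 : p ∈ LLs s P := (mem_Vis.1 h3).1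
        rw [if_pos h3, if_pos h2, if_pos h3]
        simp [wtc]
      · rw [if_neg h3, if_neg h3]
        by_cases h2 : p ∈ LLs s P
        · rw [if_pos h2, if_pos h2]
          split_ifs <;> simp [wtc]
        · rw [if_neg h2, if_neg h2]
          simp [wtc]
  rw [prod_congr rfl fun p _ => h1 p, prod_mul_distrib, prod_ite_mem, prod_ite_mem, univ_inter,
    univ_inter, prod_const, prod_const, mul_pow, mul_assoc]
  have h0 : 0 ≤ τ ^ (LLs s P).card := pow_nonneg hτ _
  refine le_mul_of_one_le_right h0 ?_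
  have hβ1 : β ≤ 1 := by
    by_contra h
    push Not at h
    have h2 : 1 < β ^ 32 := one_lt_pow₀ h (by norm_num)
    rw [hβ', one_lt_div hn] at h2
    linarith
  have e1 : (n : ℝ) / q = (β ^ 32)⁻¹ := by
    rw [hβ', inv_div]
  rw [e1, inv_pow, ← pow_mul]
  have e2 : β ^ (32 * (Vis W s P).card) ≤ β ^ (LLs s P).card :=
    pow_le_pow_of_le_one hβ.le hβ1 hV
  have e3 : 0 < β ^ (32 * (Vis W s P).card) := by positivity
  rw [← div_eq_mul_inv, one_le_div e3]
  exact e2

end CD

open CD in
theorem count_data (s : ℕ) (hs : 1 ≤ s) (q τ β : ℝ) (hq : 0 < q) (hqn : q ≤ n) (hτ : 0 ≤ τ)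
    (hβ : 0 < β) (hβ' : β ^ 32 = q / n) (W : Finset (Fin n)) (F : SimpleGraph (Fin n))
    (a : Arc n) (ρ : Fin n → Fin n → Fin n) (A : Finset (PathSystem G))
    (hA : ∀ P ∈ A, P.Consistent ∧ dirG P = F ∧ arcP s P = a ∧ revP s P = ρ ∧
      (LLs s P).card ≤ 32 * (Vis W s P).card) :
    ∑ P ∈ A, τ ^ (LLs s P).card ≤ Real.exp (2 * (n : ℝ) ^ 2 * s / q) *
      ∏ p ∈ Rem F a, ((kap F a p : ℝ) + 2 * τ * β * n) := by
  have hn : (0 : ℝ) < n := hq.trans_le hqn
  have ht1 : 0 ≤ τ * β := by positivity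
  have ht2 : 0 ≤ τ * β * (n / q) := by positivity
  have hk : ∀ p, 0 ≤ (kap F a p : ℝ) + 2 * τ * β * n := fun p => by positivity
  have hstep1 : ∑ P ∈ A, τ ^ (LLs s P).card ≤
      ∑ P ∈ A, ∏ p : Pr n, wtc (τ * β) (τ * β * (n / q)) (cde W s F a P p) := by
    refine sum_le_sum fun P hP => ?_
    obtain ⟨_, h2, h3, _, h5⟩ := hA P hP
    exact prod_wt hq hqn hτ hβ hβ' h2 h3 h5
  refine hstep1.trans ?_
  have hts := two_stage_inst A (fun P p => cde W s F a P p)
    (fun P hP Q hQ h => cde_inj (hA P hP).1 (hA P hP).2.1 (hA P hP).2.2.1 (hA Q hQ).1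
      (hA Q hQ).2.1 (hA Q hQ).2.2.1 h)
    (Xs W) (fun _ c => wtc (τ * β) (τ * β * (n / q)) c) (fun _ c => wtc_nonneg ht1 ht2 c)
    (fun p => opts F a p ∅) (fun P p => opts F a p (Cs W a P p))
    (by
      intro P hP Q hQ h
      obtain ⟨a1, a2, a3, a4, _⟩ := hA P hP
      obtain ⟨b1, b2, b3, b4, _⟩ := hA Q hQ
      have hck : ∀ c ∈ W, ∀ d, d ∉ W → P.nxt c d = Q.nxt c d := fun c hc d hd =>
        cross_known a1 a2 a3 a4 b1 b2 b3 b4 h hc hd
      funext p
      rw [Cs_congr hck p])
    (by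
      intro P hP p hp
      obtain ⟨a1, a2, a3, a4, _⟩ := hA P hP
      exact cde_mem a1 a2 a3 ∅ p (fun h => absurd h (notMem_Vis_of_Xs hp)))
    (by
      intro P hP p _
      obtain ⟨a1, a2, a3, a4, _⟩ := hA P hP
      exact cde_mem a1 a2 a3 _ p (fun h => vis_mem_Cs hs a1 a3 p h))
    (Real.exp (2 * (n : ℝ) ^ 2 * s / q) *
      ∏ p ∈ (Xs W)ᶜ, if p ∈ Rem F a then ((kap F a p : ℝ) + 2 * τ * β * n) else 1)
    (by
      intro P hP
      obtain ⟨a1, a2, a3, a4, _⟩ := hA P hP
      have e1 : ∀ p ∈ (Xs W)ᶜ, ∑ c ∈ opts F a p (Cs W a P p), wtc (τ * β) (τ * β * (n / q)) c ≤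
          Real.exp (((Cs W a P p).card : ℝ) / q) *
            (if p ∈ Rem F a then ((kap F a p : ℝ) + 2 * τ * β * n) else 1) := by
        intro p _
        have hexp : 1 + ((Cs W a P p).card : ℝ) / q ≤ Real.exp (((Cs W a P p).card : ℝ) / q) := by
          rw [add_comm]
          exact Real.add_one_le_exp _
        have hnn : 0 ≤ ((Cs W a P p).card : ℝ) / q := by positivity
        split_ifs with hr
        · refine (sum_opts_of_mem ht1 ht2 _ hr).trans ?_
          have e2 : (kap F a p : ℝ) + n * (τ * β) + (Cs W a P p).card * (τ * β * (n / q)) ≤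
              (1 + ((Cs W a P p).card : ℝ) / q) * ((kap F a p : ℝ) + 2 * τ * β * n) := by
            have e3 : ((Cs W a P p).card : ℝ) * (τ * β * (n / q)) =
              ((Cs W a P p).card : ℝ) / q * (τ * β * n) := by
                field_simp
            rw [e3]
            have e4 : 0 ≤ ((Cs W a P p).card : ℝ) / q * kap F a p := by positivity
            have e5 : 0 ≤ ((Cs W a P p).card : ℝ) / q * (τ * β * n) := by positivity
            have e6 : 0 ≤ τ * β * n := by positivity
            nlinarith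
          exact e2.trans (mul_le_mul_of_nonneg_right hexp (hk p))
        · rw [sum_opts_of_notMem _ hr, mul_one]
          linarith
      refine (prod_le_prod (fun p _ => sum_nonneg fun c _ => wtc_nonneg ht1 ht2 c) e1).trans ?_
      rw [prod_mul_distrib]
      refine mul_le_mul_of_nonneg_right ?_ (prod_nonneg fun p _ => ?_)
      · rw [← Real.exp_sum, Real.exp_le_exp, ← sum_div]
        refine div_le_div_of_nonneg_right ?_ hq.le
        have := sum_card_Cs (W := W) hs a3 (Xs W)ᶜ
        exact_mod_cast this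
      · split_ifs
        · exact hk p
        · exact zero_le_one)
    (mul_nonneg (Real.exp_pos _).le (prod_nonneg fun p _ => by
        split_ifs
        · exact hk p
        · exact zero_le_one))
  refine hts.trans ?_
  have e7 : ∏ p ∈ Xs W, ∑ c ∈ opts F a p ∅, wtc (τ * β) (τ * β * (n / q)) c ≤
      ∏ p ∈ Xs W, if p ∈ Rem F a then ((kap F a p : ℝ) + 2 * τ * β * n) else 1 := by
    refine prod_le_prod (fun p _ => sum_nonneg fun c _ => wtc_nonneg ht1 ht2 c) fun p _ => ?_
    split_ifs with hr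
    · refine (sum_opts_of_mem ht1 ht2 _ hr).trans ?_
      rw [card_empty, Nat.cast_zero, zero_mul, add_zero]
      have e6 : 0 ≤ τ * β * n := by positivity
      nlinarith
    · rw [sum_opts_of_notMem _ hr]
  have e8 : 0 ≤ Real.exp (2 * (n : ℝ) ^ 2 * s / q) *
      ∏ p ∈ (Xs W)ᶜ, if p ∈ Rem F a then ((kap F a p : ℝ) + 2 * τ * β * n) else 1 :=
    mul_nonneg (Real.exp_pos _).le (prod_nonneg fun p _ => by
        split_ifs
        · exact hk p
        · exact zero_le_one)
  refine (mul_le_mul_of_nonneg_left e7 e8).trans ?_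
  rw [mul_assoc, mul_comm (∏ p ∈ (Xs W)ᶜ, _), prod_mul_prod_compl, prod_ite_mem, univ_inter]

end

end PS
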