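import Pool.Agent.Helper21.PS.Basic

/-!
# MP_8013d7_co, module CD: the main counting lemma
-/

set_option autoImplicit false

namespace PS

open SimpleGraph Finset Pool.Agent.Helper37.PathSys
open Pool.Agent.Helper37.PathSys.PathSystem

open scoped Classical

noncomputable section

namespace CD

variable {n : ℕ} {G : SimpleGraph (Fin n)}

/-- codes -/
abbrev Cd (n : ℕ) := Option (Fin 3 × Fin n × Fin n)

/-- weights of the codes -/
def wtc (t1 t2 : ℝ) (c : Cd n) : ℝ :=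
  match c with
  | none => 1
  | some (k, _) => if k = 0 then 1 else if k = 1 then t1 else t2

/-- the code of a path system at a pair -/
def cde (W : Finset (Fin n)) (s : ℕ) (F : SimpleGraph (Fin n)) (a : Arc n) (P : PathSystem G)
    (p : Pr n) : Cd n :=
  if p ∉ Rem F a then none
  else if p ∈ Vis W s P then some (2, P.nxt p.1.1 p.1.2, P.nxt p.1.2 p.1.1)
  else if p ∈ LLs s P then
    (if p.1.1 ∉ W ∧ p.1.2 ∈ W then some (1, P.nxt p.1.2 p.1.1, P.nxt p.1.2 p.1.1)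
     else some (1, P.nxt p.1.1 p.1.2, P.nxt p.1.1 p.1.2))
  else some (0, P.nxt p.1.1 p.1.2, P.nxt p.1.2 p.1.1)

/-- known options -/
def Kn (F : SimpleGraph (Fin n)) (a : Arc n) (p : Pr n) : Finset (Fin n × Fin n) :=
  (univ.filter fun x => F.Adj p.1.1 x ∧ F.Adj p.1.2 x).image (fun x => (x, x)) ∪
    univ.filter fun q => q.1 ≠ q.2 ∧ a q.2 p.1.1 = some q.1 ∧ a q.1 p.1.2 = some q.2

lemma card_Kn_le (F : SimpleGraph (Fin n)) (a : Arc n) (p : Pr n) :
    (Kn F a p).card ≤ kap F a p := by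
  unfold Kn kap cod lh
  exact (card_union_le _ _).trans (Nat.add_le_add card_image_le le_rfl)

/-- the options with a given set of visible options -/
def opts (F : SimpleGraph (Fin n)) (a : Arc n) (p : Pr n) (C : Finset (Fin n × Fin n)) :
    Finset (Cd n) :=
  if p ∈ Rem F a then
    ((Kn F a p).image (fun q => some ((0 : Fin 3), q)) ∪
      (univ : Finset (Fin n)).image (fun z => some ((1 : Fin 3), z, z))) ∪
      C.image (fun q => some ((2 : Fin 3), q))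
  else {none}

lemma sum_union_le' {α : Type} [DecidableEq α] (A B : Finset α) (f : α → ℝ) (hf : ∀ x, 0 ≤ f x) :
    ∑ x ∈ A ∪ B, f x ≤ ∑ x ∈ A, f x + ∑ x ∈ B, f x := by
  rw [← sum_union_inter]
  have : 0 ≤ ∑ x ∈ A ∩ B, f x := sum_nonneg fun x _ => hf x
  linarith

lemma wtc_nonneg {t1 t2 : ℝ} (h1 : 0 ≤ t1) (h2 : 0 ≤ t2) (c : Cd n) : 0 ≤ wtc t1 t2 c := by
  unfold wtc
  split
  · exact zero_le_one
  · split_ifs
    · exact zero_le_one
    · exact h1
    · exact h2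

lemma sum_opts_of_mem {t1 t2 : ℝ} (h1 : 0 ≤ t1) (h2 : 0 ≤ t2) {F : SimpleGraph (Fin n)}
    {a : Arc n} {p : Pr n} (C : Finset (Fin n × Fin n)) (hp : p ∈ Rem F a) :
    ∑ c ∈ opts F a p C, wtc t1 t2 c ≤ kap F a p + n * t1 + C.card * t2 := by
  unfold opts
  rw [if_pos hp]
  refine (sum_union_le' _ _ _ (wtc_nonneg h1 h2)).trans ?_
  refine add_le_add ((sum_union_le' _ _ _ (wtc_nonneg h1 h2)).trans (add_le_add ?_ ?_)) ?_
  · rw [sum_image (by
      intro x _ y _ hxy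
      simpa using hxy)]
    have : ∀ x ∈ Kn F a p, wtc t1 t2 (some ((0 : Fin 3), x)) = 1 := fun x _ => by simp [wtc]
    rw [sum_congr rfl this, sum_const, nsmul_eq_mul, mul_one]
    exact_mod_cast card_Kn_le F a p
  · rw [sum_image (by
      intro x _ y _ hxy
      simpa using hxy)]
    have : ∀ z ∈ (univ : Finset (Fin n)), wtc t1 t2 (some ((1 : Fin 3), z, z)) = t1 :=
      fun x _ => by simp [wtc]
    rw [sum_congr rfl this, sum_const, nsmul_eq_mul, card_univ, Fintype.card_fin]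
  · rw [sum_image (by
      intro x _ y _ hxy
      simpa using hxy)]
    have : ∀ x ∈ C, wtc t1 t2 (some ((2 : Fin 3), x)) = t2 := fun x _ => by simp [wtc]
    rw [sum_congr rfl this, sum_const, nsmul_eq_mul]

lemma sum_opts_of_notMem {t1 t2 : ℝ} {F : SimpleGraph (Fin n)}
    {a : Arc n} {p : Pr n} (C : Finset (Fin n × Fin n)) (hp : p ∉ Rem F a) :
    ∑ c ∈ opts F a p C, wtc t1 t2 c = 1 := by
  unfold opts
  rw [if_neg hp, sum_singleton]
  rfl

/-- heavy pairs, read off from the arc table -/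
def hvA (a : Arc n) (x y : Fin n) : Prop := ∃ u, a y u = some x

/-- the visible options -/
def Cs (W : Finset (Fin n)) (a : Arc n) (P : PathSystem G) (p : Pr n) : Finset (Fin n × Fin n) :=
  univ.filter fun q : Fin n × Fin n =>
    (p.1.1 ∈ W ∧ p.1.2 ∈ W ∧ q.1 ∉ W ∧ q.2 ∉ W) ∧ q.1 ≠ q.2 ∧ P.nxt p.1.1 q.2 = q.1 ∧
      P.nxt p.1.2 q.1 = q.2 ∧ ¬ (hvA a q.1 q.2 ∧ hvA a q.2 q.1)

/-- the crossing pairs -/
def Xs (W : Finset (Fin n)) : Finset (Pr n) := univ.filter fun p => ¬ (p.1.1 ∈ W ↔ p.1.2 ∈ W)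

lemma mem_Xs {W : Finset (Fin n)} {p : Pr n} : p ∈ Xs W ↔ ¬ (p.1.1 ∈ W ↔ p.1.2 ∈ W) := by
  simp [Xs]

lemma mem_Vis {W : Finset (Fin n)} {s : ℕ} {P : PathSystem G} {p : Pr n} :
    p ∈ Vis W s P ↔ p ∈ LLs s P ∧ p.1.1 ∈ W ∧ p.1.2 ∈ W ∧ P.nxt p.1.1 p.1.2 ∉ W ∧
      P.nxt p.1.2 p.1.1 ∉ W := by
  simp [Vis]

lemma mem_LLs {s : ℕ} {P : PathSystem G} {p : Pr n} :
    p ∈ LLs s P ↔ p ∈ Rem (dirG P) (arcP s P) ∧ P.nxt p.1.1 p.1.2 ≠ P.nxt p.1.2 p.1.1 ∧
    ¬ (hv s P (P.nxt p.1.1 p.1.2) (P.nxt p.1.2 p.1.1) ∧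
      hv s P (P.nxt p.1.2 p.1.1) (P.nxt p.1.1 p.1.2)) := by
  simp [LLs]

lemma notMem_Vis_of_Xs {W : Finset (Fin n)} {s : ℕ} {P : PathSystem G} {p : Pr n}
    (hp : p ∈ Xs W) : p ∉ Vis W s P := by
  intro h
  rw [mem_Xs] at hp
  rw [mem_Vis] at h
  exact hp ⟨fun _ => h.2.2.1, fun _ => h.2.1⟩

section data

variable {W : Finset (Fin n)} {s : ℕ} {F : SimpleGraph (Fin n)} {a : Arc n}
  {ρ : Fin n → Fin n → Fin n} {P Q : PathSystem G}

/-- the code is an option -/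
lemma cde_mem (hP : P.Consistent) (hF : dirG P = F) (ha : arcP s P = a)
    (C : Finset (Fin n × Fin n)) (p : Pr n)
    (hC : p ∈ Vis W s P → (P.nxt p.1.1 p.1.2, P.nxt p.1.2 p.1.1) ∈ C) :
    cde W s F a P p ∈ opts F a p C := by
  unfold cde opts
  by_cases hp : p ∈ Rem F a
  swap
  · rw [if_pos hp, if_neg hp, mem_singleton]
  rw [if_neg (not_not.2 hp), if_pos hp]
  split_ifs with h1 h2 h3
  · refine mem_union_right _ ?_
    rw [mem_image]
    exact ⟨_, hC h1, rfl⟩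
  · refine mem_union_left _ (mem_union_right _ ?_)
    rw [mem_image]
    exact ⟨_, mem_univ _, rfl⟩
  · refine mem_union_left _ (mem_union_right _ ?_)
    rw [mem_image]
    exact ⟨_, mem_univ _, rfl⟩
  · refine mem_union_left _ (mem_union_left _ ?_)
    rw [mem_image]
    refine ⟨(P.nxt p.1.1 p.1.2, P.nxt p.1.2 p.1.1), ?_, rfl⟩
    have huv : p.1.1 ≠ p.1.2 := p.2.ne
    have hd : ¬ (dirG P).Adj p.1.1 p.1.2 := by
      rw [hF]
      exact (mem_Rem.1 hp).1
    obtain ⟨r1, r2, r3, r4, r5, r6⟩ := rem_cases hP huv hd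
    rw [hF] at r1 r2
    unfold Kn
    rw [mem_union]
    by_cases he : P.nxt p.1.1 p.1.2 = P.nxt p.1.2 p.1.1
    · left
      rw [mem_image]
      refine ⟨P.nxt p.1.1 p.1.2, ?_, by rw [← he]⟩
      rw [mem_filter]
      refine ⟨mem_univ _, r1, ?_⟩
      rw [he]
      exact r2
    · right
      rw [mem_filter]
      refine ⟨mem_univ _, he, ?_⟩
      rw [mem_LLs, hF, ha] at h2
      have hh : hv s P (P.nxt p.1.1 p.1.2) (P.nxt p.1.2 p.1.1) ∧
          hv s P (P.nxt p.1.2 p.1.1) (P.nxt p.1.1 p.1.2) := by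
        by_contra h
        exact h2 ⟨hp, he, h⟩
      constructor
      · rw [← ha]
        exact arcP_eq_some.2 ⟨Ne.symm r4, r5, hh.1⟩
      · rw [← ha]
        exact arcP_eq_some.2 ⟨Ne.symm r3, r6, hh.2⟩

lemma vis_mem_Cs (hs : 1 ≤ s) (hP : P.Consistent) (ha : arcP s P = a) (p : Pr n)
    (h : p ∈ Vis W s P) : (P.nxt p.1.1 p.1.2, P.nxt p.1.2 p.1.1) ∈ Cs W a P p := by
  rw [mem_Vis] at h
  obtain ⟨h0, h1, h2, h3, h4⟩ := h
  rw [mem_LLs] at h0
  obtain ⟨g1, g2, g3⟩ := h0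
  have huv : p.1.1 ≠ p.1.2 := p.2.ne
  obtain ⟨r1, r2, r3, r4, r5, r6⟩ := rem_cases hP huv (mem_Rem.1 g1).1
  unfold Cs
  rw [mem_filter]
  refine ⟨mem_univ _, ⟨h1, h2, h3, h4⟩, g2, r5, r6, ?_⟩
  intro h
  apply g3
  rw [hv_iff hs, hv_iff hs, ha]
  exact h

/-- a direct pair or an arc determines a next vertex -/
lemma nxt_of_dir (hF : dirG P = F) {c d : Fin n} (h : F.Adj c d) :
    P.nxt c d = d := by
  rw [← hF] at h
  exact h.2.1

lemma nxt_of_arc (ha : arcP s P = a) {c d x : Fin n} (h : a d c = some x) : P.nxt c d = x := by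
  rw [← ha] at h
  exact (arcP_eq_some.1 h).2.1

lemma nxt_of_arc' (hP : P.Consistent) (ha : arcP s P = a) (hρ : revP s P = ρ) {c d x : Fin n}
    (h : a c d = some x) : P.nxt c d = ρ c x := by
  rw [← ha] at h
  rw [revP_eq hP h, hρ]

/-- injectivity of the code -/
lemma cde_inj (hP : P.Consistent) (hF : dirG P = F) (ha : arcP s P = a)
    (hQ : Q.Consistent) (hF' : dirG Q = F) (ha' : arcP s Q = a)
    (h : cde W s F a P = cde W s F a Q) : P = Q := by
  refine eq_of_nxt_any hP hQ fun u v huv => Or.inr ?_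
  have hp := congrFun h ⟨(u, v), huv⟩
  by_cases hr : (⟨(u, v), huv⟩ : Pr n) ∈ Rem F a
  swap
  · rw [mem_Rem] at hr
    by_cases h1 : F.Adj u v
    · left
      rw [nxt_of_dir hF h1, nxt_of_dir hF' h1]
    · by_cases h2 : a u v = none
      · have h3 : a v u ≠ none := fun h3 => hr ⟨h1, h2, h3⟩
        obtain ⟨x, hx⟩ := Option.ne_none_iff_exists'.1 h3
        left
        rw [nxt_of_arc ha hx, nxt_of_arc ha' hx]
      · obtain ⟨x, hx⟩ := Option.ne_none_iff_exists'.1 h2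
        right
        rw [nxt_of_arc ha hx, nxt_of_arc ha' hx]
  · unfold cde at hp
    rw [if_neg (not_not.2 hr), if_neg (not_not.2 hr)] at hp
    simp only at hp
    split_ifs at hp <;> simp_all

/-- the code at the crossing pairs determines the next vertices of the crossing pairs -/
lemma cross_known (hP : P.Consistent) (hF : dirG P = F) (ha : arcP s P = a)
    (hρ : revP s P = ρ) (hQ : Q.Consistent) (hF' : dirG Q = F) (ha' : arcP s Q = a)
    (hρ' : revP s Q = ρ) (h : ∀ p ∈ Xs W, cde W s F a P p = cde W s F a Q p)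
    {c d : Fin n} (hc : c ∈ W) (hd : d ∉ W) : P.nxt c d = Q.nxt c d := by
  have hcd : c ≠ d := by
    rintro rfl
    exact hd hc
  by_cases h1 : F.Adj c d
  · rw [nxt_of_dir hF h1, nxt_of_dir hF' h1]
  by_cases h2 : a d c = none
  swap
  · obtain ⟨x, hx⟩ := Option.ne_none_iff_exists'.1 h2
    rw [nxt_of_arc ha hx, nxt_of_arc ha' hx]
  by_cases h3 : a c d = none
  swap
  · obtain ⟨x, hx⟩ := Option.ne_none_iff_exists'.1 h3
    rw [nxt_of_arc' hP ha hρ hx, nxt_of_arc' hQ ha' hρ' hx]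
  rcases lt_or_gt_of_ne hcd with hlt | hlt
  · have hX : (⟨(c, d), hlt⟩ : Pr n) ∈ Xs W := by
      rw [mem_Xs]
      intro h
      exact hd (h.1 hc)
    have hr : (⟨(c, d), hlt⟩ : Pr n) ∈ Rem F a := mem_Rem.2 ⟨h1, h3, h2⟩
    have hp := h _ hX
    unfold cde at hp
    rw [if_neg (not_not.2 hr), if_neg (not_not.2 hr), if_neg (notMem_Vis_of_Xs hX),
      if_neg (notMem_Vis_of_Xs hX)] at hp
    simp only at hp
    have hn : ¬ (c ∉ W ∧ d ∈ W) := fun h => hd h.2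
    rw [if_neg hn, if_neg hn] at hp
    split_ifs at hp <;> simp_all
  · have hX : (⟨(d, c), hlt⟩ : Pr n) ∈ Xs W := by
      rw [mem_Xs]
      intro h
      exact hd (h.2 hc)
    have hr : (⟨(d, c), hlt⟩ : Pr n) ∈ Rem F a := mem_Rem.2 ⟨fun h => h1 h.symm, h2, h3⟩
    have hp := h _ hX
    unfold cde at hp
    rw [if_neg (not_not.2 hr), if_neg (not_not.2 hr), if_neg (notMem_Vis_of_Xs hX),
      if_neg (notMem_Vis_of_Xs hX)] at hp
    simp only at hp
    have hn : d ∉ W ∧ c ∈ W := ⟨hd, hc⟩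
    rw [if_pos hn, if_pos hn] at hp
    split_ifs at hp <;> simp_all

lemma Cs_congr (h : ∀ c ∈ W, ∀ d, d ∉ W → P.nxt c d = Q.nxt c d) (p : Pr n) :
    Cs W a P p = Cs W a Q p := by
  unfold Cs
  refine filter_congr fun q _ => ?_
  refine and_congr_right fun hq => ?_
  rw [h _ hq.1 _ hq.2.2.2, h _ hq.2.1 _ hq.2.2.1]

end data

end CD

end

end PS
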